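import Pool.Agent.KS6_1.SI.ShortDelta

/-!
# Small gaps between zeta zeros in short intervals

Assume the Riemann hypothesis.  The library's theorem `SmallGaps` says that for `β > 1/2` a positive
proportion of the unfolded gaps `δ_1, …, δ_N` is smaller than `β`.  Here the same question is
answered in short intervals: for `0 < α ≤ 1` and `β > 1 / (1 + α)` EVERY block of `H` consecutive
gaps `δ_{N+1}, …, δ_{N+H}` with `N ^ α ≤ H ≤ N` contains at least `ε H` gaps smaller than `β`.
So every power of `N` is long enough for a constant below the mean value `1`, and the constant tends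
to `1/2` as `α → 1`.  In short intervals the library has, unconditionally, one gap below
`1 / (1 + α) + o(1)` (`MP_ca0a54_nt`, `ShortIntervalGaps`) and a positive proportion of gaps below
`β` for `β > 2 / (2 + α)` (`MP_ca0a54_nt`, `PositiveProportion`).

Idea of the proof (the method of the library's files `H382P`, with the window and the length of the
detector decoupled).  Let `c (1 + η) > 1` with `η < α` and `h = iπc / log T`.  On the Riemann
hypothesis the imaginary part of `f(s) = Λ(s - h) / Λ(s + h)`, `Λ` the completed zeta function, just
to the right of the critical line can be large only near two zeros at distance less than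
`2πc / log T`.  It is averaged over a Gaussian window of width `T ^ (η + ν)`, `η + ν < α`, against
`|D|²`, where `D` is a Dirichlet polynomial of length `T ^ η` with multiplicative coefficients.  As
the window is longer than `D`, the off-diagonal terms can be removed by moving the line of
integration to `re s = 6 ± T ^ (η + ν)`.  The diagonal terms are evaluated by a recursion, and the
imaginary part of the mean is `≫` the length of the window exactly because `c (1 + η) > 1`.
Hölder's inequality and bounds for the exponential moments of sums over nearby zeros in the same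
short window give a positive proportion of small gaps.
-/

open Filter

namespace Pool.Agent.Results.MP_7eacff_nt.ShortIntervals

/-- multiplicity of `s` as a zero of the Riemann zeta function (order of vanishing at `s`) -/
noncomputable def zmult (s : ℂ) : ℕ := analyticOrderNatAt riemannZeta s

/-- the number of nontrivial zeros of `ζ` with ordinate in `(0, t]`, with multiplicity -/
noncomputable def NZ (t : ℝ) : ℕ :=
  ∑ᶠ s ∈ {s : ℂ | riemannZeta s = 0 ∧ 0 < s.re ∧ s.re < 1 ∧ 0 < s.im ∧ s.im ≤ t}, zmult s

/-- for `n ≥ 1`: the `n`-th positive ordinate `γ n` of a nontrivial zero of `ζ`, the ordinates being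
listed in nondecreasing order and repeated according to multiplicity -/
noncomputable def γ (n : ℕ) : ℝ := sInf {t : ℝ | n ≤ NZ t}

/-- the unfolded consecutive gaps `δ_n = (γ_{n+1} - γ_n) / 2π · log (γ_n / 2π)` -/
noncomputable def δ (n : ℕ) : ℝ := (γ (n + 1) - γ n) / (2 * Real.pi) * Real.log (γ n / (2 * Real.pi))

/-- **Small gaps in short intervals.** On the Riemann hypothesis, for `0 < α ≤ 1` and
`β > 1 / (1 + α)` there is `ε > 0` such that for all large `N` and ALL `H` with `N ^ α ≤ H ≤ N` at
least `ε H` of the unfolded gaps `δ_{N+1}, …, δ_{N+H}` of the zeta zeros are smaller than `β`. -/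
theorem result (RH : RiemannHypothesis) (α β : ℝ) (hα : 0 < α) (hα1 : α ≤ 1)
    (hβ : 1 / (1 + α) < β) :
    ∃ ε : ℝ, 0 < ε ∧ ∃ N₀ : ℕ, ∀ N H : ℕ, N₀ ≤ N → (N : ℝ) ^ α ≤ H → H ≤ N →
      ε * H ≤ ({n : ℕ | N < n ∧ n ≤ N + H ∧ δ n < β}.ncard : ℝ) := by
  have hRHs : SP.RHs := by
    intro s h1 h2 h0
    apply RH s h0
    · rintro ⟨k, hk⟩
      have := congrArg Complex.re hk
      simp at this
      have hk0 : (0 : ℝ) ≤ k := Nat.cast_nonneg k
      linarith
    · intro h; rw [h] at h2; simp at h2
  exact Pool.Agent.KS6_1.SI.short_delta hRHs α β hα hα1 hβ

end Pool.Agent.Results.MP_7eacff_nt.ShortIntervals
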