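import Pool.Agent.KS6_1.SR.Final

/-!
# Small sums of consecutive gaps between zeta zeros in short blocks

Assume the Riemann hypothesis and let `δ_n` be the unfolded gaps of the zeta zeros, of mean value
`1`.  For `0 < α ≤ 1` and `k ≥ 1` EVERY block `N < n ≤ N + H` with `N ^ α ≤ H ≤ N` contains at least
`ε H` indices `n` for which `δ_n + ⋯ + δ_{n+k-1}` is smaller than its mean value `k` by

* `(9/5) (√(α k + (9/10 (1 + α))²) - 9/10 (1 + α))`,
* `(2 - ε') √(α k)` if `k` is large in terms of `ε'` and `α`,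
* `k - c` if `k - c < L (α c)`, `L(x) = (4/π) ∫_0^1 (πx/2) sinc (πxv/2) (1 - v) dv`.

For `k = 1` the bound of the hand-in `ShortIntervals` is better; the theorem is about `k ≥ 2`: clusters
of `k + 1` zeros in intervals shorter than `k` mean spacings, by a quantity of the order `√(α k)`, in
every block of length `N ^ α`.  For `α = 1` and `k ≥ 3` the first bound is also better than the constant
`k - √k + 13/25` of the library's theorem `UniformRSums`, which concerns all `n ≤ N`.

Idea of the proof.  The resonance argument of Montgomery and Odlyzko in the form of the library's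
files `LG`, `RG` compares `∫ |E|² Z` with `k ∫ |E|²`, where `Z` counts the zeros near `t` and `E` is a
two-sided Dirichlet polynomial `∑ a(A) a(B) (n_B / n_A)^{it}` over sets `A`, `B` of primes, with
negative coefficients at the primes.  Here the window and the length of `E` are decoupled: for `η < α` the polynomial
`E` has length `T ^ η` and the windows have length `T ^ (η + ν)`, `η + ν < α`.  The diagonal terms are
those of a resonator at the point `η c` instead of `c`, and Hölder's inequality together with moment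
bounds in the same short windows turns the inequality of the means into a positive proportion of
small sums in every window.
-/

open Filter

namespace Pool.Agent.Results.MP_7eacff_nt.SmallSumsShortBlocks

/-- multiplicity of `s` as a zero of the Riemann zeta function (order of vanishing at `s`) -/
noncomputable def zmult (s : ℂ) : ℕ := analyticOrderNatAt riemannZeta s

/-- the number of nontrivial zeros of `ζ` with ordinate in `(0, t]`, with multiplicity -/
noncomputable def NZ (t : ℝ) : ℕ :=
  ∑ᶠ s ∈ {s : ℂ | riemannZeta s = 0 ∧ 0 < s.re ∧ s.re < 1 ∧ 0 < s.im ∧ s.im ≤ t}, zmult s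

/-- for `n ≥ 1`: the `n`-th positive ordinate `γ n` of a nontrivial zero of `ζ`, the ordinates being
listed in nondecreasing order and repeated according to multiplicity -/
noncomputable def γ (n : ℕ) : ℝ := sInf {t : ℝ | n ≤ NZ t}

/-- the unfolded consecutive gaps `δ_n = (γ_{n+1} - γ_n) / 2π · log (γ_n / 2π)` -/
noncomputable def δ (n : ℕ) : ℝ := (γ (n + 1) - γ n) / (2 * Real.pi) * Real.log (γ n / (2 * Real.pi))

/-- `P n` holds for at least `ε H` of the indices `N < n ≤ N + H`, for all `N^α ≤ H ≤ N` and all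
large `N`, with some fixed `ε > 0` -/
def InAllBlocks (α : ℝ) (P : ℕ → Prop) : Prop :=
  ∃ ε : ℝ, 0 < ε ∧ ∃ N₀ : ℕ, ∀ N H : ℕ, N₀ ≤ N → (N : ℝ) ^ α ≤ H → H ≤ N →
    ε * H ≤ ({n : ℕ | N < n ∧ n ≤ N + H ∧ P n}.ncard : ℝ)

/-- `L(x) = (4/π) ∫_0^1 sin (πxv/2) / v · (1 - v) dv` -/
noncomputable def L (x : ℝ) : ℝ :=
  4 / Real.pi * ∫ v in (0 : ℝ)..1, Real.pi * x / 2 * Real.sinc (Real.pi * x / 2 * v) * (1 - v)

/-- **Small sums of consecutive gaps in short blocks.** On the Riemann hypothesis, for
`0 < α ≤ 1`, every block of `H` indices, `N ^ α ≤ H ≤ N`, contains `≥ ε H` indices `n` with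
`δ_n + ⋯ + δ_{n+k-1} < k - (9/5) (√(α k + (9/10 (1 + α))²) - 9/10 (1 + α))`, for every `k ≥ 1`, with
`δ_n + ⋯ + δ_{n+k-1} < k - (2 - e) √(α k)` for every `e > 0` and all large `k`, and with
`δ_n + ⋯ + δ_{n+k-1} < c` whenever `k - c < L (α c)`. -/
theorem result (RH : RiemannHypothesis) (α : ℝ) (hα : 0 < α) (hα1 : α ≤ 1) :
    (∀ k : ℕ, 1 ≤ k → InAllBlocks α (fun n => ∑ i ∈ Finset.range k, δ (n + i) <
      k - 9 / 5 * (Real.sqrt (α * k + (9 / 10 * (1 + α)) ^ 2) - 9 / 10 * (1 + α)))) ∧
    (∀ e : ℝ, 0 < e → ∃ k₀ : ℕ, ∀ k : ℕ, k₀ ≤ k → InAllBlocks α (fun n =>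
      ∑ i ∈ Finset.range k, δ (n + i) < k - (2 - e) * Real.sqrt (α * k))) ∧
    (∀ k : ℕ, 1 ≤ k → ∀ c : ℝ, 0 < c → k - c < L (α * c) → InAllBlocks α (fun n =>
      ∑ i ∈ Finset.range k, δ (n + i) < c)) := by
  have hRHs : SP.RHs := by
    intro s h1 h2 h0
    apply RH s h0
    · rintro ⟨k, hk⟩
      have := congrArg Complex.re hk
      simp at this
      have hk0 : (0 : ℝ) ≤ k := Nat.cast_nonneg k
      linarith
    · intro h; rw [h] at h2; simp at h2
  exact ⟨fun k hk => Pool.Agent.KS6_1.SR.small_all hRHs hα hα1 hk,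
    fun e he => Pool.Agent.KS6_1.SR.small_asym hRHs hα hα1 he,
    fun k hk c hc h => Pool.Agent.KS6_1.SR.small_crit hRHs hα hα1 hk hc h⟩

end Pool.Agent.Results.MP_7eacff_nt.SmallSumsShortBlocks
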