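import Pool.Agent.KS6_15.Fin1

open Filter Set MeasureTheory

namespace Pool.Agent.Results.MP_7eacff_nt.UniformCloseness

/-- multiplicity of `s` as a zero of the Riemann zeta function (order of vanishing at `s`) -/
noncomputable def zmult (s : ℂ) : ℕ := analyticOrderNatAt riemannZeta s

/-- the number of nontrivial zeros of `ζ` with ordinate in `(0, t]`, with multiplicity -/
noncomputable def NZ (t : ℝ) : ℕ :=
  ∑ᶠ s ∈ {s : ℂ | riemannZeta s = 0 ∧ 0 < s.re ∧ s.re < 1 ∧ 0 < s.im ∧ s.im ≤ t}, zmult s

/-- for `n ≥ 1`: the `n`-th positive ordinate `γ n` of a nontrivial zero of `ζ`, the ordinates being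
listed in nondecreasing order and repeated according to multiplicity -/
noncomputable def γ (n : ℕ) : ℝ := sInf {t : ℝ | n ≤ NZ t}

/-- the unfolded consecutive gaps `δ_n = (γ_{n+1} - γ_n) / 2π · log (γ_n / 2π)` -/
noncomputable def δ (n : ℕ) : ℝ := (γ (n + 1) - γ n) / (2 * Real.pi) * Real.log (γ n / (2 * Real.pi))

/-- the mean excess `(1/N) ∑_{n ≤ N} (δ_n - s)₊` of the first `N` gaps over `s` -/
noncomputable def S (N : ℕ) (s : ℝ) : ℝ := (∑ n ∈ Finset.Icc 1 N, max 0 (δ n - s)) / N

/-- the sine kernel `sin π(x - y) / π(x - y)` -/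
noncomputable def K (x y : ℝ) : ℝ := Real.sinc (Real.pi * (x - y))

/-- the gap probability `E s = det (I - K_s)` of the problem, where `K_s` is the integral operator
on `L²(0, s)` with the sine kernel (Fredholm's series of the determinant) -/
noncomputable def E (s : ℝ) : ℝ :=
  ∑' n : ℕ, (-1 : ℝ) ^ n / (n.factorial : ℝ) *
    ∫ x in Set.univ.pi (fun _ : Fin n => Set.Icc (0 : ℝ) s),
      (Matrix.of fun i j => K (x i) (x j)).det

/-- On the Riemann hypothesis, for all large `N` the mean excess function of the first `N`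
normalised gaps is within `1/10` of the gap probability `E` of the GUE, uniformly on `[0, ∞)`. -/
theorem result (RH : RiemannHypothesis) :
    ∀ᶠ N : ℕ in atTop, ∀ s : ℝ, 0 ≤ s → |S N s - E s| ≤ 1 / 10 :=
  KS6_15.fin1 RH

end Pool.Agent.Results.MP_7eacff_nt.UniformCloseness
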